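import Pool.Agent.helper76.SJ.ZDefs

/-!
# Project sj, stage 2: the degeneration cycles `V` in `C_a^n × C_a'^(n-1) × F`

`C_a : y^d = ∏ (x - a_j)^(μ_j)`, `m + 2` branch points in the plane (`n = m + 1`). The branch points `a_0`, `a_1` are
merged: `C_a'` has the `m + 1` branch points `a'_j` and the exponents `mg d μ = ((μ_0 + μ_1) mod d, μ_2, ...)`;
`F : w^d = t^(μ_0) (t - 1)^(μ_1)` has the branch points `0`, `1` and infinity (a quotient of a Fermat curve), exponents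
`nu μ = (μ_0, μ_1)`. `V` is the variety of all `(x_i, y_i) ∈ C_a` (`i < m + 1`), `(x'_i, y'_i) ∈ C_a'` (`i < m`),
`(t, w) ∈ F` with, for `P = ∏ (T - x_i)`, `Q = ∏ (T - x'_i)`, `s = Q(a'_0) / f_a''(a'_0)`,
`P(a_0) / f_a'(a_0) = t s`, `P(a_1) / f_a'(a_1) = (1 - t) s`,
`P(a_(j+2)) / f_a'(a_(j+2)) = Q(a'_(j+1)) / f_a''(a'_(j+1))` and
`∏ y_i = κ w ∏ (x'_i - a'_0)^((μ_0 + μ_1) / d) ∏ y'_i`.
It is parametrised by `Q` and `t` (finitely many points over every `(Q, t)`), algebraic of dimension `m + 1`.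
-/

namespace Pool.Agent.HC.SJ

open scoped Matrix ComplexConjugate Classical

noncomputable section

/-- the merged exponents `((μ_0 + μ_1) mod d, μ_2, μ_3, ...)` -/
def mg (d : ℕ) {m : ℕ} (μ : Fin (m + 2) → ℕ) : Fin (m + 1) → ℕ :=
  Fin.cons ((μ 0 + μ 1) % d) (fun j : Fin m => μ j.succ.succ)

/-- the exponents `(μ_0, μ_1)` of the curve `F : w^d = t^(μ_0) (t - 1)^(μ_1)` -/
def nu {m : ℕ} (μ : Fin (m + 2) → ℕ) : Fin 2 → ℕ := ![μ 0, μ 1]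

/-- the branch points `0`, `1` of `F` -/
def e2 : Fin 2 → ℂ := ![0, 1]

/-- the coefficients of `Q`; the parameter is `c = (coefficients of Q, t)` -/
def cq {m : ℕ} (c : Fin (m + 1) → ℂ) : Fin m → ℂ := fun i => c i.castSucc

/-- the parameter `t` -/
def ct {m : ℕ} (c : Fin (m + 1) → ℂ) : ℂ := c (Fin.last m)

/-- the numbers `P(a_j) / f_a'(a_j)`: `t s`, `(1 - t) s`, `Q(a'_(j+1)) / f_a''(a'_(j+1))` with `s = Q(a'_0) / f_a''(a'_0)` -/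
def vv {m : ℕ} (a' : Fin (m + 1) → ℂ) (c : Fin (m + 1) → ℂ) : Fin (m + 2) → ℂ :=
  Fin.cons (ct c * (lam a' 0 * pv (cq c) (a' 0)))
    (Fin.cons ((1 - ct c) * (lam a' 0 * pv (cq c) (a' 0)))
      (fun j : Fin m => lam a' j.succ * pv (cq c) (a' j.succ)))

/-- the derivative of `vv` with respect to the parameter `c_l` -/
def dv {m : ℕ} (a' : Fin (m + 1) → ℂ) (c : Fin (m + 1) → ℂ) (l : Fin (m + 1)) : Fin (m + 2) → ℂ :=
  if l = Fin.last m then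
    Fin.cons (lam a' 0 * pv (cq c) (a' 0)) (Fin.cons (-(lam a' 0 * pv (cq c) (a' 0))) (fun _ => 0))
  else
    Fin.cons (ct c * (lam a' 0 * a' 0 ^ (l : ℕ)))
      (Fin.cons ((1 - ct c) * (lam a' 0 * a' 0 ^ (l : ℕ)))
        (fun j : Fin m => lam a' j.succ * a' j.succ ^ (l : ℕ)))

/-- the polynomial with given values `v_j f_a'(a_j)` at the `a_j` (Lagrange interpolation) -/
def lg {m : ℕ} (a : Fin (m + 2) → ℂ) (v : Fin (m + 2) → ℂ) (t : ℂ) : ℂ :=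
  ∑ j, v j * ∏ k ∈ Finset.univ.erase j, (t - a k)

/-- points `(x_i, y_i)` of `C_a` (`m + 1` points), `(x'_i, y'_i)` of `C_a'` (`m` points) and `w` (for the point `(t, w)`
of `F`, `t` is a parameter) -/
structure VPt (m : ℕ) where
  x : Fin (m + 1) → ℂ
  y : Fin (m + 1) → ℂ
  x' : Fin m → ℂ
  y' : Fin m → ℂ
  w : ℂ

/-- the points of (an open dense part of) `V` over the parameter `c = (coefficients of Q, t)` -/
structure IsV (d : ℕ) {m : ℕ} (μ : Fin (m + 2) → ℕ) (a : Fin (m + 2) → ℂ) (a' : Fin (m + 1) → ℂ) (κ : ℂ)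
    (c : Fin (m + 1) → ℂ) (z : VPt m) : Prop where
  inj : Function.Injective z.x
  inj' : Function.Injective z.x'
  ne : ∀ i, z.y i ≠ 0
  ne' : ∀ i, z.y' i ≠ 0
  nw : z.w ≠ 0
  roots : ∀ t, ∏ i, (t - z.x i) = lg a (vv a' c) t
  roots' : ∀ t, ∏ i, (t - z.x' i) = pv (cq c) t
  curve : ∀ i, z.y i ^ d = fm μ a (z.x i)
  curve' : ∀ i, z.y' i ^ d = fm (mg d μ) a' (z.x' i)
  curvew : z.w ^ d = fm (nu μ) e2 (ct c)
  prod : ∏ i, z.y i = κ * z.w * (∏ i, (z.x' i - a' 0)) ^ ((μ 0 + μ 1) / d) * ∏ i, z.y' i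

/-- `∂x_i/∂c_l` -/
def XV {m : ℕ} (a : Fin (m + 2) → ℂ) (a' : Fin (m + 1) → ℂ) (c : Fin (m + 1) → ℂ) (x : Fin (m + 1) → ℂ) :
    Matrix (Fin (m + 1)) (Fin (m + 1)) ℂ :=
  Matrix.of fun i l => -lg a (dv a' c l) (x i) / ∏ k ∈ Finset.univ.erase i, (x i - x k)

/-- `∂x'_i/∂c_l` -/
def XW {m : ℕ} (x' : Fin m → ℂ) : Matrix (Fin m) (Fin (m + 1)) ℂ :=
  Matrix.of fun i => Fin.snoc (XM x' i) 0

/-- the derivative of the map `V → A_a × (A_a' × A_F)` (sums of the Abel-Jacobi maps) at the point `z` over `c` in the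
direction `v` -/
def DV (d : ℕ) {m : ℕ} (μ : Fin (m + 2) → ℕ) (a : Fin (m + 2) → ℂ) (a' : Fin (m + 1) → ℂ)
    (c : Fin (m + 1) → ℂ) (z : VPt m) (v : Fin (m + 1) → ℂ) :
    (Idx d μ → ℂ) × ((Idx d (mg d μ) → ℂ) × (Idx d (nu μ) → ℂ)) :=
  (∑ i, (XV a a' c z.x *ᵥ v) i • om d μ a (z.x i) (z.y i),
    (∑ i, (XW z.x' *ᵥ v) i • om d (mg d μ) a' (z.x' i) (z.y' i),
      v (Fin.last m) • om d (nu μ) e2 (ct c) z.w))

/-- the class of `V` (its image in `A_a × (A_a' × A_F)`): the integral of a constant form -/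
def clV (d : ℕ) {m : ℕ} (μ : Fin (m + 2) → ℕ) (a : Fin (m + 2) → ℂ) (a' : Fin (m + 1) → ℂ) (κ : ℂ) {R : Type}
    [NormedAddCommGroup R] [NormedSpace ℝ R]
    (η : ((Idx d μ → ℂ) × ((Idx d (mg d μ) → ℂ) × (Idx d (nu μ) → ℂ))) [⋀^Fin (2 * (m + 1))]→ₗ[ℝ] R) : R :=
  ∫ c : Fin (m + 1) → ℂ, ∑ᶠ z ∈ {z : VPt m | IsV d μ a a' κ c z},
    η (fun j => DV d μ a a' c z (rb (m + 1) j))

end

end Pool.Agent.HC.SJ
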